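import Pool.Agent.H10.T2.Targets1

/-!
# T2, module SC: Schur relations
-/

open scoped Classical ComplexConjugate

namespace Pool.Agent.H34.T2

open AMc AMe AMt Pool.Agent.H77.EA.All

section

variable {G : Type} [Group G] [Fintype G]

/-- the additive extension of a function to the group algebra -/
noncomputable def fl (χ : G → ℂ) : MonoidAlgebra ℂ G →+ ℂ where
  toFun z := ∑ g, z.coeff g * χ g
  map_zero' := by simp
  map_add' z w := by
    simp only [MonoidAlgebra.coeff_add, Finsupp.add_apply, add_mul, Finset.sum_add_distrib]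

omit [Group G] in
lemma fl_apply (χ : G → ℂ) (z : MonoidAlgebra ℂ G) : fl χ z = ∑ g, z.coeff g * χ g := rfl

omit [Group G] in
lemma fl_single (χ : G → ℂ) (g : G) (c : ℂ) : fl χ (MonoidAlgebra.single g c) = c * χ g := by
  rw [fl_apply]
  simp only [MonoidAlgebra.coeff_single, Finsupp.single_apply, ite_mul, zero_mul]
  rw [Finset.sum_ite_eq]
  simp

/-- sum over the conjugates with multiplicities -/
noncomputable def clsum (x : G) : MonoidAlgebra ℂ G :=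
  ∑ a : G, MonoidAlgebra.single (a * x * a⁻¹) 1

lemma clsum_coeff (x g : G) :
    (clsum x).coeff g = ∑ a : G, if a * x * a⁻¹ = g then (1 : ℂ) else 0 := by
  unfold clsum
  rw [MonoidAlgebra.coeff_sum, Finsupp.finsetSum_apply]
  simp only [MonoidAlgebra.coeff_single, Finsupp.single_apply]

lemma clsum_inv (x u g : G) : (clsum x).coeff (u * g * u⁻¹) = (clsum x).coeff g := by
  rw [clsum_coeff, clsum_coeff]
  refine Fintype.sum_equiv (Equiv.mulLeft u⁻¹) _ _ fun a => ?_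
  have h : (a * x * a⁻¹ = u * g * u⁻¹) ↔ (u⁻¹ * a) * x * (u⁻¹ * a)⁻¹ = g := by
    constructor
    · intro h
      have h2 : (u⁻¹ * a) * x * (u⁻¹ * a)⁻¹ = u⁻¹ * (a * x * a⁻¹) * u := by group
      rw [h2, h]; group
    · intro h
      rw [← h]; group
  simp only [Equiv.coe_mulLeft]
  by_cases hh : a * x * a⁻¹ = u * g * u⁻¹
  · rw [if_pos hh, if_pos (h.1 hh)]
  · rw [if_neg hh, if_neg (fun h' => hh (h.2 h'))]

lemma fl_clsum (χ : G → ℂ) (hc : ∀ g x, χ (g * x * g⁻¹) = χ x) (x : G) :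
    fl χ (clsum x) = (Nat.card G : ℂ) * χ x := by
  unfold clsum
  rw [map_sum]
  simp only [fl_single, hc, one_mul]
  rw [Finset.sum_const, Finset.card_univ, Nat.card_eq_fintype_card, nsmul_eq_mul]

lemma fl_mul (χ : G → ℂ) (hc : ∀ g x, χ (g * x * g⁻¹) = χ x) (x y : G) :
    fl χ (clsum x * clsum y) = (Nat.card G : ℂ) * ∑ a : G, χ (a * x * a⁻¹ * y) := by
  unfold clsum
  rw [Finset.mul_sum, map_sum]
  have h : ∀ b : G, fl χ ((∑ a : G, MonoidAlgebra.single (a * x * a⁻¹) (1 : ℂ)) *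
      MonoidAlgebra.single (b * y * b⁻¹) 1) = ∑ a : G, χ (a * x * a⁻¹ * y) := by
    intro b
    rw [Finset.sum_mul, map_sum]
    refine Fintype.sum_equiv (Equiv.mulLeft b⁻¹) _ _ fun a => ?_
    rw [MonoidAlgebra.single_mul_single, fl_single, one_mul, one_mul]
    have h2 : a * x * a⁻¹ * (b * y * b⁻¹) =
        b * ((b⁻¹ * a) * x * (b⁻¹ * a)⁻¹ * y) * b⁻¹ := by group
    rw [h2, hc]
    rfl
  simp only [h]
  rw [Finset.sum_const, Finset.card_univ, Nat.card_eq_fintype_card, nsmul_eq_mul]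

end

theorem sc : T_SC := by
  intro G _ _ χ hχ χ' hχ' x y
  have hA := (fA3 G)
  have hcl : ∀ φ ∈ Irr G, ∀ g x, φ (g * x * g⁻¹) = φ x := fun φ hφ =>
    (hA.2.1 φ (hA.1 φ hφ).1).1
  have hcj : ∀ φ ∈ Irr G, ∀ g, conj (φ g) = φ g⁻¹ := fun φ hφ =>
    (hA.2.1 φ (hA.1 φ hφ).1).2.1
  have h1 : ∀ φ ∈ Irr G, φ 1 ≠ 0 := by
    intro φ hφ
    obtain ⟨d, hd, hd'⟩ := (hA.1 φ hφ).2
    rw [hd']
    exact_mod_cast hd.ne'
  have hG : (Nat.card G : ℂ) ≠ 0 := by
    have : 0 < Nat.card G := Nat.card_pos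
    exact_mod_cast this.ne'
  have second : ∀ φ ∈ Irr G, ∀ x y : G,
      ∑ a : G, φ (a * x * a⁻¹ * y) = (Nat.card G : ℂ) / φ 1 * φ x * φ y := by
    intro φ hφ x y
    have h := fA6 G φ hφ (clsum x) (clsum y) (clsum_inv x) (clsum_inv y)
    rw [← fl_apply, ← fl_apply, ← fl_apply, fl_mul φ (hcl φ hφ), fl_clsum φ (hcl φ hφ),
      fl_clsum φ (hcl φ hφ)] at h
    have h0 := h1 φ hφ
    have h3 : (Nat.card G : ℂ) * ((∑ a : G, φ (a * x * a⁻¹ * y)) * φ 1) =
        (Nat.card G : ℂ) * ((Nat.card G : ℂ) * φ x * φ y) := by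
      rw [← mul_assoc, h]; ring
    have h4 := mul_left_cancel₀ hG h3
    rw [div_mul_eq_mul_div, div_mul_eq_mul_div, eq_div_iff h0, h4]
  refine ⟨?_, second χ hχ x y⟩
  have e1 : ∑ a : G, χ (x * a⁻¹) * χ' (a * y) = ∑ g : G, χ g⁻¹ * χ' (g * (x * y)) := by
    refine Fintype.sum_equiv (Equiv.mulRight x⁻¹) _ _ fun a => ?_
    simp only [Equiv.coe_mulRight]
    congr 2
    · group
    · group
  set h := x * y with hh
  have e2 : (Nat.card G : ℂ) * ∑ g : G, χ g⁻¹ * χ' (g * h) =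
      ∑ g : G, χ g⁻¹ * ((Nat.card G : ℂ) / χ' 1 * χ' g * χ' h) := by
    have e3 : ∀ b : G, ∑ g : G, χ g⁻¹ * χ' (g * h) = ∑ g : G, χ g⁻¹ * χ' (b * g * b⁻¹ * h) := by
      intro b
      refine (Fintype.sum_equiv (MulAut.conj b).toEquiv _ _ fun g => ?_).symm
      have : (MulAut.conj b).toEquiv g = b * g * b⁻¹ := rfl
      rw [this]
      have h5 : (b * g * b⁻¹)⁻¹ = b * g⁻¹ * b⁻¹ := by group
      rw [h5, hcl χ hχ]
    calc (Nat.card G : ℂ) * ∑ g : G, χ g⁻¹ * χ' (g * h)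
        = ∑ b : G, ∑ g : G, χ g⁻¹ * χ' (g * h) := by
          rw [Finset.sum_const, Finset.card_univ, Nat.card_eq_fintype_card, nsmul_eq_mul]
      _ = ∑ b : G, ∑ g : G, χ g⁻¹ * χ' (b * g * b⁻¹ * h) :=
          Finset.sum_congr rfl fun b _ => e3 b
      _ = ∑ g : G, ∑ b : G, χ g⁻¹ * χ' (b * g * b⁻¹ * h) := Finset.sum_comm
      _ = ∑ g : G, χ g⁻¹ * ((Nat.card G : ℂ) / χ' 1 * χ' g * χ' h) := by
          refine Finset.sum_congr rfl fun g _ => ?_
          rw [← Finset.mul_sum, second χ' hχ' g h]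
  have e4 : ∑ g : G, χ g⁻¹ * χ' g = if χ = χ' then (Nat.card G : ℂ) else 0 := by
    have h6 := fA1 G χ' χ hχ' hχ
    have h7 : ∑ g : G, χ g⁻¹ * χ' g = ∑ g, χ' g * conj (χ g) := by
      refine Finset.sum_congr rfl fun g _ => ?_
      rw [hcj χ hχ, mul_comm]
    rw [h7, h6]
    by_cases hc : χ = χ'
    · rw [if_pos hc, if_pos hc.symm]
    · rw [if_neg hc, if_neg (fun h => hc h.symm)]
  have e5 : (Nat.card G : ℂ) * ∑ g : G, χ g⁻¹ * χ' (g * h) =
      (Nat.card G : ℂ) * (χ' h / χ' 1 * ∑ g : G, χ g⁻¹ * χ' g) := by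
    rw [e2, Finset.mul_sum, Finset.mul_sum]
    refine Finset.sum_congr rfl fun g _ => ?_
    ring
  have e6 := mul_left_cancel₀ hG e5
  rw [e1, e6, e4]
  by_cases hc : χ = χ'
  · rw [if_pos hc, if_pos hc, ← hc]; ring
  · rw [if_neg hc, if_neg hc, mul_zero]

end Pool.Agent.H34.T2
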