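import Pool.Agent.H10.T2.Targets1

/-!
# T2, module SV: Schur relations over representatives of `V / K`
-/

open scoped Classical ComplexConjugate

namespace Pool.Agent.H34.T2

open AMc AMe AMt Pool.Agent.H77.EA.All

lemma svSum {Γ : Type} [Group Γ] {H : Type} [Group H] [Fintype H] (K V : Subgroup Γ)
    (hKV : K ≤ V) (p : H →* Γ) (R : Finset Γ) (hR : Tv R K V) (a : Γ → H)
    (ha : ∀ v ∈ R, p (a v) = v) (f : H → ℂ)
    (hf : ∀ b c, p c ∈ K → f (b * c) = f b) :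
    ∑ b : V.comap p, f b = (Nat.card (K.comap p) : ℂ) * ∑ v ∈ R, f (a v) := by
  have e1 : ∑ v ∈ R, ∑ c : K.comap p, f (a v * c) =
      (Nat.card (K.comap p) : ℂ) * ∑ v ∈ R, f (a v) := by
    rw [Finset.mul_sum]
    refine Finset.sum_congr rfl fun v _ => ?_
    have : ∀ c : K.comap p, f (a v * c) = f (a v) := fun c => hf _ _ c.2
    simp only [this]
    rw [Finset.sum_const, Finset.card_univ, Nat.card_eq_fintype_card, nsmul_eq_mul]
  rw [← e1, Finset.sum_sigma']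
  symm
  refine Finset.sum_bij (fun (rc : (_ : Γ) × (K.comap p)) hrc =>
    (⟨a rc.1 * rc.2, ?_⟩ : V.comap p)) ?_ ?_ ?_ ?_
  · have h1 := (Finset.mem_sigma.1 hrc).1
    rw [Subgroup.mem_comap, map_mul, ha _ h1]
    exact V.mul_mem (hR.1 _ h1) (hKV rc.2.2)
  · intro rc _
    exact Finset.mem_univ _
  · rintro ⟨r, c⟩ h1 ⟨r', c'⟩ h2 h
    have hr := (Finset.mem_sigma.1 h1).1
    have hr' := (Finset.mem_sigma.1 h2).1
    simp only at hr hr'
    have h3 : a r * (c : H) = a r' * (c' : H) := congrArg Subtype.val h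
    have h4 : r * p c = r' * p c' := by
      have := congrArg p h3
      rwa [map_mul, map_mul, ha _ hr, ha _ hr'] at this
    have h5 : r * p c ∈ V := V.mul_mem (hR.1 _ hr) (hKV c.2)
    obtain ⟨r0, _, hu⟩ := hR.2 _ h5
    have h6 : r = r0 := hu r ⟨hr, by
      rw [inv_mul_cancel_left]; exact c.2⟩
    have h7 : r' = r0 := hu r' ⟨hr', by
      rw [h4, inv_mul_cancel_left]; exact c'.2⟩
    have h8 : r = r' := h6.trans h7.symm
    subst h8
    have h9 : c = c' := Subtype.ext (mul_left_cancel h3)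
    subst h9
    rfl
  · rintro ⟨b, hb⟩ _
    obtain ⟨r, ⟨hr, hrK⟩, _⟩ := hR.2 _ hb
    refine ⟨⟨r, ⟨(a r)⁻¹ * b, ?_⟩⟩, ?_, ?_⟩
    · rw [Subgroup.mem_comap, map_mul, map_inv, ha _ hr]
      exact hrK
    · exact Finset.mem_sigma.2 ⟨hr, Finset.mem_univ _⟩
    · apply Subtype.ext
      simp only
      rw [mul_inv_cancel_left]
  · rintro ⟨r, c⟩ _
    rfl

theorem sv (SC : T_SC) : T_SV := by
  intro Γ _ _ K U θ H _ _ p i τ hT V hKV hVU R hR a ha η hη η' hη' hηk hη'k hηz hη'z x hx y hy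
  have h0K : (Nat.card (K.comap p) : ℂ) ≠ 0 := by
    have : 0 < Nat.card (K.comap p) := Nat.card_pos
    exact_mod_cast this.ne'
  have hτ1 : τ 1 ≠ 0 := by
    obtain ⟨d, hd, hd'⟩ := ((fA3 H).1 τ hT.tau).2
    rw [hd']
    exact_mod_cast hd.ne'
  obtain ⟨hηs, hηc, ⟨d, hd, hd'⟩, -, -, hηI⟩ := fS1 H (V.comap p) η hη
  obtain ⟨hη's, -, -, -, -, hη'I⟩ := fS1 H (V.comap p) η' hη'
  -- card
  have hcard : (Nat.card (V.comap p) : ℂ) = (Nat.card (K.comap p) : ℂ) * (K.relIndex V : ℂ) := by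
    have h1 : (K.comap p) ≤ V.comap p := Subgroup.comap_mono hKV
    have h2 : (K.comap p).relIndex (V.comap p) = K.relIndex V := by
      rw [Subgroup.relIndex_comap]
      congr 1
      refine Subgroup.map_comap_eq_self ?_
      rw [hT.rng]; exact hVU
    have h3 : Nat.card (K.comap p) * (K.comap p).relIndex (V.comap p) = Nat.card (V.comap p) :=
      by
        have h4 := Subgroup.relIndex_mul_relIndex ⊥ (K.comap p) (V.comap p) bot_le h1
        rwa [Subgroup.relIndex_bot_left, Subgroup.relIndex_bot_left] at h4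
    rw [← h3, h2]
    push_cast
    ring
  -- moving `i k`
  have mv : ∀ ζ : H → ℂ, (∀ b k, ζ (b * i k) = ζ b) → ∀ g1 g2 k,
      ζ (g1 * i k * g2) = ζ (g1 * g2) := by
    intro ζ hζ g1 g2 k
    obtain ⟨k', hk'⟩ := hT.cjk g2⁻¹ k
    have : g1 * i k * g2 = g1 * g2 * i k' := by rw [hk']; group
    rw [this, hζ]
  have dec : ∀ c, p c ∈ K → ∃ z k, p z = 1 ∧ c = z * i k := by
    intro c hc
    refine ⟨c * (i ⟨p c, hc⟩)⁻¹, ⟨p c, hc⟩, ?_, ?_⟩
    · rw [map_mul, map_inv, hT.pi]; simp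
    · group
  have hzz : ∀ z, p z = 1 → τ z * τ z⁻¹ = τ 1 * τ 1 := by
    intro z hz
    have hzc : z ∈ Subgroup.center H :=
      Subgroup.mem_center_iff.2 fun g => (hT.kerp z hz g).symm
    have h := (fZH H τ hT.tau z hzc).1 z⁻¹
    rw [mul_inv_cancel] at h
    exact h.symm
  have hzi : ∀ z, p z = 1 → p z⁻¹ = 1 := by
    intro z hz; rw [map_inv, hz, inv_one]
  have key1 : ∀ b c, p c ∈ K → η (x * (b * c)⁻¹) * η' (b * c * y) = η (x * b⁻¹) * η' (b * y) := by
    intro b c hc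
    obtain ⟨z, k, hz, rfl⟩ := dec c hc
    have hzb := hT.kerp z hz
    have e1 : b * (z * i k) * y = z * (b * i k * y) := by
      rw [← mul_assoc b z, ← hzb b]; simp only [mul_assoc]
    have e2 : x * (b * (z * i k))⁻¹ = z⁻¹ * (x * i k⁻¹ * b⁻¹) := by
      have hz' := hT.kerp z⁻¹ (hzi z hz)
      have h1 : (b * (z * i k))⁻¹ = i k⁻¹ * z⁻¹ * b⁻¹ := by
        rw [map_inv]; group
      rw [h1, ← hz' (i k⁻¹), ← mul_assoc, ← mul_assoc, ← hz' x]
      simp only [mul_assoc]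
    have e3 : η (z⁻¹ * (x * i k⁻¹ * b⁻¹)) * τ z⁻¹ = η (x * b⁻¹) * τ 1 := by
      rw [hηz _ (hzi z hz), mv η hηk]
    have e4 : η' (z * (b * i k * y)) * τ z = η' (b * y) * τ 1 := by
      rw [hη'z _ hz, mv η' hη'k]
    rw [e1, e2]
    have h5 : (η (z⁻¹ * (x * i k⁻¹ * b⁻¹)) * η' (z * (b * i k * y))) * (τ 1 * τ 1) =
        (η (x * b⁻¹) * η' (b * y)) * (τ 1 * τ 1) := by
      rw [← hzz z hz]
      calc (η (z⁻¹ * (x * i k⁻¹ * b⁻¹)) * η' (z * (b * i k * y))) * (τ z * τ z⁻¹)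
          = (η (z⁻¹ * (x * i k⁻¹ * b⁻¹)) * τ z⁻¹) * (η' (z * (b * i k * y)) * τ z) := by ring
        _ = (η (x * b⁻¹) * τ 1) * (η' (b * y) * τ 1) := by rw [e3, e4]
        _ = (η (x * b⁻¹) * η' (b * y)) * (τ 1 * τ 1) := by ring
        _ = (η (x * b⁻¹) * η' (b * y)) * (τ z * τ z⁻¹) := by rw [hzz z hz]
    exact mul_right_cancel₀ (mul_ne_zero hτ1 hτ1) h5
  have key2 : ∀ b c, p c ∈ K → η (b * c * x * (b * c)⁻¹ * y) = η (b * x * b⁻¹ * y) := by
    intro b c hc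
    obtain ⟨z, k, hz, rfl⟩ := dec c hc
    have hzb := hT.kerp z hz
    have e1 : b * (z * i k) * x * (b * (z * i k))⁻¹ * y =
        b * i k * (x * (i k)⁻¹ * b⁻¹ * y) := by
      have h1 : b * (z * i k) = z * (b * i k) := by
        rw [← mul_assoc b z, ← hzb b]; simp only [mul_assoc]
      rw [h1, mul_inv_rev, mul_inv_rev]
      have h2 : z * (b * i k) * x * ((i k)⁻¹ * b⁻¹ * z⁻¹) * y =
          z * (b * i k * x * ((i k)⁻¹ * b⁻¹)) * z⁻¹ * y := by simp only [mul_assoc]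
      rw [h2, hzb, mul_inv_cancel_right]
      simp only [mul_assoc]
    have e2 : b * (x * (i k)⁻¹ * b⁻¹ * y) = (b * x) * i k⁻¹ * (b⁻¹ * y) := by
      rw [map_inv]; simp only [mul_assoc]
    rw [e1, mv η hηk, e2, mv η hηk]
    simp only [mul_assoc]
  have s1 := svSum K V hKV p R hR a ha (fun b => η (x * b⁻¹) * η' (b * y)) key1
  have s2 := svSum K V hKV p R hR a ha (fun b => η (b * x * b⁻¹ * y)) key2
  have hη1 : η 1 ≠ 0 := by
    rw [hd']
    exact_mod_cast hd.ne'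
  have q := SC (V.comap p) (fun n : V.comap p => η n) hηI (fun n : V.comap p => η' n) hη'I
    ⟨x, hx⟩ ⟨y, hy⟩
  simp only [Subgroup.coe_mul, InvMemClass.coe_inv, OneMemClass.coe_one] at q
  have hiff : ((fun n : V.comap p => η n) = fun n : V.comap p => η' n) ↔ η = η' := by
    constructor
    · intro h
      funext g
      by_cases hg : g ∈ V.comap p
      · exact congrFun h ⟨g, hg⟩
      · rw [hηs g hg, hη's g hg]
    · intro h; rw [h]
  refine ⟨?_, ?_⟩
  · have h := s1.symm.trans q.1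
    refine mul_left_cancel₀ h0K (h.trans ?_)
    by_cases hc : η = η'
    · rw [if_pos (hiff.2 hc), if_pos hc, hcard]; ring
    · rw [if_neg (fun h => hc (hiff.1 h)), if_neg hc, mul_zero]
  · have h := s2.symm.trans q.2
    refine mul_left_cancel₀ h0K (h.trans ?_)
    rw [hcard]; ring

end Pool.Agent.H34.T2
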